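import Pool.Agent.H97R2.LPB.Props

set_option autoImplicit false

/-! Task ENERGY (second attempt): energy of the nodes. -/

open Polynomial Filter Topology MeasureTheory Pool.Agent.H337R2 Pool.Agent.LP

namespace Pool.Agent.LPB.H614

noncomputable section

/-- full double sum -/
def SS (x : ℕ → ℝ) (m : ℕ) : ℝ :=
  ∑ i ∈ Finset.range m, ∑ j ∈ Finset.range m, Real.log |x i - x j|

lemma erase_eq (x : ℕ → ℝ) (m : ℕ) :
    ∑ i ∈ Finset.range m, ∑ j ∈ (Finset.range m).erase i, Real.log |x i - x j| = SS x m := by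
  unfold SS
  refine Finset.sum_congr rfl fun i hi => ?_
  rw [← Finset.add_sum_erase _ _ hi]
  simp

lemma SS_succ (x : ℕ → ℝ) (m : ℕ) :
    SS x (m + 1) = SS x m + 2 * ∑ j ∈ Finset.range m, Real.log |x m - x j| := by
  unfold SS
  have h : ∑ i ∈ Finset.range m, Real.log |x i - x m| =
      ∑ j ∈ Finset.range m, Real.log |x m - x j| :=
    Finset.sum_congr rfl (fun i _ => by rw [abs_sub_comm])
  simp only [Finset.sum_range_succ, Finset.sum_add_distrib]
  rw [h]
  simp
  ring

lemma log_step (n : ℕ) : (n : ℝ) * (Real.log ((n : ℝ) + 1) - Real.log n) ≤ 1 := by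
  rcases Nat.eq_zero_or_pos n with h | h
  · subst h
    simp
  · have hn : (0 : ℝ) < n := by exact_mod_cast h
    rw [← Real.log_div (by positivity) hn.ne']
    have h1 : Real.log (((n : ℝ) + 1) / n) ≤ ((n : ℝ) + 1) / n - 1 :=
      Real.log_le_sub_one_of_pos (by positivity)
    have h2 : (n : ℝ) * (((n : ℝ) + 1) / n - 1) = 1 := by field_simp; ring
    calc (n : ℝ) * Real.log (((n : ℝ) + 1) / n) ≤ (n : ℝ) * (((n : ℝ) + 1) / n - 1) :=
          mul_le_mul_of_nonneg_left h1 hn.le
      _ = 1 := h2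

lemma sum_log_succ (n : ℕ) : (n : ℝ) * Real.log n - n ≤ ∑ j ∈ Finset.range n, Real.log ((j : ℝ) + 1) := by
  induction n with
  | zero => simp
  | succ n ih =>
    rw [Finset.sum_range_succ]
    have h := log_step n
    push_cast
    nlinarith

lemma sum_log_sub (n : ℕ) :
    (n : ℝ) * Real.log n - n ≤ ∑ j ∈ Finset.range n, Real.log |(n : ℝ) - (j : ℝ)| := by
  have h : ∑ j ∈ Finset.range n, Real.log |(n : ℝ) - (j : ℝ)| =
      ∑ j ∈ Finset.range n, Real.log ((j : ℝ) + 1) := by
    rw [← Finset.sum_range_reflect]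
    refine Finset.sum_congr rfl fun j hj => ?_
    have hj' := Finset.mem_range.1 hj
    have e : ((n - 1 - j : ℕ) : ℝ) = (n : ℝ) - 1 - j := by
      rw [Nat.cast_sub (by omega), Nat.cast_sub (by omega)]
      simp
    rw [e]
    have e2 : (n : ℝ) - ((n : ℝ) - 1 - j) = (j : ℝ) + 1 := by ring
    rw [e2, abs_of_pos (by positivity)]
  rw [h]
  exact sum_log_succ n

lemma T_lower (n : ℕ) :
    (n : ℝ) ^ 2 * Real.log n - 3 / 2 * (n : ℝ) ^ 2 - 2 * n * Real.log n ≤
      SS (fun i : ℕ => (i : ℝ)) n := by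
  induction n with
  | zero => simp [SS]
  | succ n ih =>
    rw [SS_succ]
    have h1 := sum_log_sub n
    have h2 := log_step n
    have h3 : 0 ≤ Real.log ((n : ℝ) + 1) := Real.log_nonneg (by
      have : (0 : ℝ) ≤ n := Nat.cast_nonneg n
      linarith)
    have hn : (0 : ℝ) ≤ n := Nat.cast_nonneg n
    have h4 : (n : ℝ) * ((n : ℝ) * (Real.log ((n : ℝ) + 1) - Real.log n)) ≤ (n : ℝ) * 1 :=
      mul_le_mul_of_nonneg_left h2 hn
    push_cast
    nlinarith

lemma SS_affine (x : ℕ → ℝ) (c : ℝ) (hc : 0 < c)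
    (hx : ∀ i j : ℕ, x i - x j = c * ((i : ℝ) - j)) (m : ℕ) :
    SS x m = (m : ℝ) * ((m : ℝ) - 1) * Real.log c + SS (fun i : ℕ => (i : ℝ)) m := by
  induction m with
  | zero => simp [SS]
  | succ m ih =>
    rw [SS_succ, SS_succ, ih]
    have h : ∑ j ∈ Finset.range m, Real.log |x m - x j| =
        m * Real.log c + ∑ j ∈ Finset.range m, Real.log |(m : ℝ) - (j : ℝ)| := by
      rw [← nsmul_eq_mul, ← Finset.card_range m, ← Finset.sum_const, Finset.card_range,
        ← Finset.sum_add_distrib]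
      refine Finset.sum_congr rfl fun j hj => ?_
      have hj' := Finset.mem_range.1 hj
      have hne : (m : ℝ) - j ≠ 0 := by
        have : (j : ℝ) < m := by exact_mod_cast hj'
        linarith
      rw [hx, abs_mul, Real.log_mul (abs_ne_zero.2 hc.ne') (abs_ne_zero.2 hne), abs_of_pos hc]
    rw [h]
    push_cast
    ring

lemma same_lower (a c : ℝ) (hc : 1 / 2 ≤ c) (hc3 : c ≤ 3) (n : ℕ) (hn : 2 ≤ n) :
    (Real.log c - 3 / 2) * (n : ℝ) ^ 2 + (n : ℝ) ^ 2 * Real.log n - 4 * n * Real.log n ≤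
      SS (fun i : ℕ => a * n + c * ((i : ℝ) + 1 / 2)) n := by
  have hc0 : 0 < c := by linarith
  rw [SS_affine _ c hc0 (fun i j => by ring) n]
  have h1 := T_lower n
  have hn0 : (0 : ℝ) < n := by
    have : 0 < n := by omega
    exact_mod_cast this
  have h2 : Real.log c ≤ 2 * Real.log n := by
    have e1 : Real.log c ≤ Real.log 4 := Real.log_le_log hc0 (by linarith)
    have e2 : Real.log 4 = 2 * Real.log 2 := by
      rw [show (4 : ℝ) = 2 ^ 2 by norm_num, Real.log_pow]
      norm_num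
    have e3 : Real.log 2 ≤ Real.log n := Real.log_le_log (by norm_num) (by exact_mod_cast hn)
    linarith
  have h3 : (n : ℝ) * Real.log c ≤ (n : ℝ) * (2 * Real.log n) := mul_le_mul_of_nonneg_left h2 hn0.le
  nlinarith

/-! ### the four bricks -/

lemma sum4 (n : ℕ) (f : ℝ → ℝ) : ∑ i ∈ Finset.range (4 * n), f (xn n i) =
    ∑ i ∈ Finset.range n, f (0 * n + 15 / 16 * ((i : ℝ) + 1 / 2)) +
    ∑ i ∈ Finset.range n, f (-(15 / 16) * n + 15 / 16 * ((i : ℝ) + 1 / 2)) +
    ∑ i ∈ Finset.range n, f (15 / 16 * n + 33 / 16 * ((i : ℝ) + 1 / 2)) +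
    ∑ i ∈ Finset.range n, f (-3 * n + 33 / 16 * ((i : ℝ) + 1 / 2)) := by
  have e : 4 * n = n + n + n + n := by ring
  rw [e, Finset.sum_range_add, Finset.sum_range_add, Finset.sum_range_add]
  have r1 : ∑ i ∈ Finset.range n, f (xn n i) =
      ∑ i ∈ Finset.range n, f (0 * n + 15 / 16 * ((i : ℝ) + 1 / 2)) := by
    refine Finset.sum_congr rfl fun i hi => ?_
    have hi' := Finset.mem_range.1 hi
    unfold xn
    rw [if_pos hi']
    congr 1
    ring
  have r2 : ∑ i ∈ Finset.range n, f (xn n (n + i)) =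
      ∑ i ∈ Finset.range n, f (-(15 / 16) * n + 15 / 16 * ((i : ℝ) + 1 / 2)) := by
    rw [← Finset.sum_range_reflect]
    refine Finset.sum_congr rfl fun i hi => ?_
    have hi' := Finset.mem_range.1 hi
    unfold xn
    rw [if_neg (by omega), if_pos (by omega)]
    have e2 : n + (n - 1 - i) - n = n - 1 - i := by omega
    have e3 : ((n - 1 - i : ℕ) : ℝ) = (n : ℝ) - 1 - i := by
      rw [Nat.cast_sub (by omega), Nat.cast_sub (by omega)]
      simp
    rw [e2, e3]
    congr 1
    ring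
  have r3 : ∑ i ∈ Finset.range n, f (xn n (n + n + i)) =
      ∑ i ∈ Finset.range n, f (15 / 16 * n + 33 / 16 * ((i : ℝ) + 1 / 2)) := by
    refine Finset.sum_congr rfl fun i hi => ?_
    have hi' := Finset.mem_range.1 hi
    unfold xn
    rw [if_neg (by omega), if_neg (by omega), if_pos (by omega)]
    have e2 : n + n + i - 2 * n = i := by omega
    rw [e2]
  have r4 : ∑ i ∈ Finset.range n, f (xn n (n + n + n + i)) =
      ∑ i ∈ Finset.range n, f (-3 * n + 33 / 16 * ((i : ℝ) + 1 / 2)) := by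
    rw [← Finset.sum_range_reflect]
    refine Finset.sum_congr rfl fun i hi => ?_
    have hi' := Finset.mem_range.1 hi
    unfold xn
    rw [if_neg (by omega), if_neg (by omega), if_neg (by omega), if_pos (by omega)]
    have e2 : n + n + n + (n - 1 - i) - 3 * n = n - 1 - i := by omega
    have e3 : ((n - 1 - i : ℕ) : ℝ) = (n : ℝ) - 1 - i := by
      rw [Nat.cast_sub (by omega), Nat.cast_sub (by omega)]
      simp
    rw [e2, e3]
    congr 1
    ring
  rw [r1, r2, r3, r4]

/-- sum over two bricks -/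
def BB2 (n : ℕ) (a c b d : ℝ) : ℝ := ∑ i ∈ Finset.range n, ∑ j ∈ Finset.range n,
  Real.log |(a * n + c * ((i : ℝ) + 1 / 2)) - (b * n + d * ((j : ℝ) + 1 / 2))|

lemma SS4 (n : ℕ) : SS (xn n) (4 * n) =
    (BB2 n 0 (15 / 16) 0 (15 / 16) + BB2 n 0 (15 / 16) (-(15 / 16)) (15 / 16) +
      BB2 n 0 (15 / 16) (15 / 16) (33 / 16) + BB2 n 0 (15 / 16) (-3) (33 / 16)) +
    (BB2 n (-(15 / 16)) (15 / 16) 0 (15 / 16) + BB2 n (-(15 / 16)) (15 / 16) (-(15 / 16)) (15 / 16) +
      BB2 n (-(15 / 16)) (15 / 16) (15 / 16) (33 / 16) + BB2 n (-(15 / 16)) (15 / 16) (-3) (33 / 16)) +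
    (BB2 n (15 / 16) (33 / 16) 0 (15 / 16) + BB2 n (15 / 16) (33 / 16) (-(15 / 16)) (15 / 16) +
      BB2 n (15 / 16) (33 / 16) (15 / 16) (33 / 16) + BB2 n (15 / 16) (33 / 16) (-3) (33 / 16)) +
    (BB2 n (-3) (33 / 16) 0 (15 / 16) + BB2 n (-3) (33 / 16) (-(15 / 16)) (15 / 16) +
      BB2 n (-3) (33 / 16) (15 / 16) (33 / 16) + BB2 n (-3) (33 / 16) (-3) (33 / 16)) := by
  unfold SS
  have h : ∀ i, ∑ j ∈ Finset.range (4 * n), Real.log |xn n i - xn n j| = _ :=
    fun i => sum4 n (fun y => Real.log |xn n i - y|)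
  simp only [h]
  rw [sum4 n (fun x => ∑ i ∈ Finset.range n, Real.log |x - (0 * n + 15 / 16 * ((i : ℝ) + 1 / 2))| +
    ∑ i ∈ Finset.range n, Real.log |x - (-(15 / 16) * n + 15 / 16 * ((i : ℝ) + 1 / 2))| +
    ∑ i ∈ Finset.range n, Real.log |x - (15 / 16 * n + 33 / 16 * ((i : ℝ) + 1 / 2))| +
    ∑ i ∈ Finset.range n, Real.log |x - (-3 * n + 33 / 16 * ((i : ℝ) + 1 / 2))|)]
  simp only [Finset.sum_add_distrib]
  rfl

/-! ### energies -/

lemma GG_neg (z : ℝ) : GG (-z) = GG z := by
  unfold GG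
  rw [Real.log_neg_eq_log]
  ring

lemma GG_zero : GG 0 = 0 := by unfold GG; simp

lemma en_same (a c : ℝ) (hc : 0 < c) : en a (a + c) a (a + c) = Real.log c - 3 / 2 := by
  unfold en
  have e1 : a + c - a = c := by ring
  have e2 : a + c - (a + c) = 0 := by ring
  have e3 : a - a = 0 := by ring
  have e4 : a - (a + c) = -c := by ring
  rw [e1, e2, e3, e4, GG_neg, GG_zero]
  unfold GG
  field_simp
  ring

lemma en_symm (a b c d : ℝ) : en a b c d = en c d a b := by
  unfold en
  have e1 : GG (b - c) = GG (c - b) := by rw [← GG_neg, neg_sub]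
  have e2 : GG (b - d) = GG (d - b) := by rw [← GG_neg, neg_sub]
  have e3 : GG (a - c) = GG (c - a) := by rw [← GG_neg, neg_sub]
  have e4 : GG (a - d) = GG (d - a) := by rw [← GG_neg, neg_sub]
  rw [e1, e2, e3, e4, mul_comm (b - a) (d - c)]
  congr 1
  ring

lemma en_neg (a b c d : ℝ) : en (-b) (-a) (-d) (-c) = en a b c d := by
  unfold en
  have e1 : GG (-a - -d) = GG (a - d) := by rw [← GG_neg (a - d)]; congr 1; ring
  have e2 : GG (-a - -c) = GG (a - c) := by rw [← GG_neg (a - c)]; congr 1; ring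
  have e3 : GG (-b - -d) = GG (b - d) := by rw [← GG_neg (b - d)]; congr 1; ring
  have e4 : GG (-b - -c) = GG (b - c) := by rw [← GG_neg (b - c)]; congr 1; ring
  rw [e1, e2, e3, e4]
  have e5 : (-a - -b) * (-c - -d) = (b - a) * (d - c) := by ring
  rw [e5]
  congr 1
  ring

end

end Pool.Agent.LPB.H614

namespace Pool.Agent.LPB

open H614

theorem G6_energy (hp : S_pair) (hs : S_sep) : S_energy := by
  obtain ⟨C, hC, hp⟩ := hp
  refine ⟨12 * C + 60, by positivity, fun n hn m hm1 hm2 => ?_⟩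
  rw [erase_eq]
  have hn0 : (0 : ℝ) < n := by
    have : 0 < n := by omega
    exact_mod_cast this
  have hl2 : Real.log 2 ≤ Real.log n := Real.log_le_log (by norm_num) (by exact_mod_cast hn)
  have hl : (1 : ℝ) / 2 ≤ Real.log n := by
    have := Real.log_two_gt_d9
    linarith
  have hnl : (n : ℝ) * (1 / 2) ≤ n * Real.log n := mul_le_mul_of_nonneg_left hl hn0.le
  have hnl0 : 0 ≤ (n : ℝ) * Real.log n := by nlinarith
  -- the main case
  have hmain : 16 * (n : ℝ) ^ 2 * Real.log n + Qx * (n : ℝ) ^ 2 - (12 * C + 16) * n * Real.log n ≤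
      SS (xn n) (4 * n) := by
    rw [SS4]
    have hd : ∀ a c : ℝ, 1 / 2 ≤ c → c ≤ 3 → en a (a + c) a (a + c) * (n : ℝ) ^ 2 +
        (n : ℝ) ^ 2 * Real.log n - 4 * n * Real.log n ≤ BB2 n a c a c := by
      intro a c hc hc3
      rw [en_same a c (by linarith)]
      exact same_lower a c hc hc3 n hn
    have ho : ∀ a c b d : ℝ, 1 / 2 ≤ c → c ≤ 3 → 1 / 2 ≤ d → d ≤ 3 →
        |a| ≤ 3 → |b| ≤ 3 → (b + d ≤ a ∨ a + c ≤ b) →
        en a (a + c) b (b + d) * (n : ℝ) ^ 2 + (n : ℝ) ^ 2 * Real.log n - C * n * Real.log n ≤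
        BB2 n a c b d := fun a c b d h1 h2 h3 h4 h5 h6 h7 => hp n hn a c b d h1 h2 h3 h4 h5 h6 h7
    have a0 : |(0 : ℝ)| ≤ 3 := by norm_num
    have a1 : |(-(15 / 16) : ℝ)| ≤ 3 := by rw [abs_neg, abs_of_pos (by norm_num)]; norm_num
    have a2 : |(15 / 16 : ℝ)| ≤ 3 := by rw [abs_of_pos (by norm_num)]; norm_num
    have a3 : |(-3 : ℝ)| ≤ 3 := by rw [abs_neg, abs_of_pos (by norm_num)]
    have p00 := hd 0 (15 / 16) (by norm_num) (by norm_num)
    have p11 := hd (-(15 / 16)) (15 / 16) (by norm_num) (by norm_num)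
    have p22 := hd (15 / 16) (33 / 16) (by norm_num) (by norm_num)
    have p33 := hd (-3) (33 / 16) (by norm_num) (by norm_num)
    have p01 := ho 0 (15 / 16) (-(15 / 16)) (15 / 16) (by norm_num) (by norm_num) (by norm_num)
      (by norm_num) a0 a1 (by norm_num)
    have p02 := ho 0 (15 / 16) (15 / 16) (33 / 16) (by norm_num) (by norm_num) (by norm_num)
      (by norm_num) a0 a2 (by norm_num)
    have p03 := ho 0 (15 / 16) (-3) (33 / 16) (by norm_num) (by norm_num) (by norm_num)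
      (by norm_num) a0 a3 (by norm_num)
    have p10 := ho (-(15 / 16)) (15 / 16) 0 (15 / 16) (by norm_num) (by norm_num) (by norm_num)
      (by norm_num) a1 a0 (by norm_num)
    have p12 := ho (-(15 / 16)) (15 / 16) (15 / 16) (33 / 16) (by norm_num) (by norm_num)
      (by norm_num) (by norm_num) a1 a2 (by norm_num)
    have p13 := ho (-(15 / 16)) (15 / 16) (-3) (33 / 16) (by norm_num) (by norm_num)
      (by norm_num) (by norm_num) a1 a3 (by norm_num)
    have p20 := ho (15 / 16) (33 / 16) 0 (15 / 16) (by norm_num) (by norm_num) (by norm_num)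
      (by norm_num) a2 a0 (by norm_num)
    have p21 := ho (15 / 16) (33 / 16) (-(15 / 16)) (15 / 16) (by norm_num) (by norm_num)
      (by norm_num) (by norm_num) a2 a1 (by norm_num)
    have p23 := ho (15 / 16) (33 / 16) (-3) (33 / 16) (by norm_num) (by norm_num) (by norm_num)
      (by norm_num) a2 a3 (by norm_num)
    have p30 := ho (-3) (33 / 16) 0 (15 / 16) (by norm_num) (by norm_num) (by norm_num)
      (by norm_num) a3 a0 (by norm_num)
    have p31 := ho (-3) (33 / 16) (-(15 / 16)) (15 / 16) (by norm_num) (by norm_num)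
      (by norm_num) (by norm_num) a3 a1 (by norm_num)
    have p32 := ho (-3) (33 / 16) (15 / 16) (33 / 16) (by norm_num) (by norm_num) (by norm_num)
      (by norm_num) a3 a2 (by norm_num)
    have z1 : (0 : ℝ) + 15 / 16 = 15 / 16 := by norm_num
    have z2 : (-(15 / 16) : ℝ) + 15 / 16 = 0 := by norm_num
    have z3 : (15 / 16 : ℝ) + 33 / 16 = 3 := by norm_num
    have z4 : (-3 : ℝ) + 33 / 16 = -(15 / 16) := by norm_num
    simp only [z1, z2, z3, z4] at p00 p11 p22 p33 p01 p02 p03 p10 p12 p13 p20 p21 p23 p30 p31 p32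
    -- symmetries
    have s11 : en (-(15 / 16)) 0 (-(15 / 16)) 0 = en 0 (15 / 16) 0 (15 / 16) := by
      have := en_neg 0 (15 / 16) 0 (15 / 16)
      rwa [neg_zero] at this
    have s33 : en (-3) (-(15 / 16)) (-3) (-(15 / 16)) = en (15 / 16) 3 (15 / 16) 3 :=
      en_neg (15 / 16) 3 (15 / 16) 3
    have s10 : en (-(15 / 16)) 0 0 (15 / 16) = en 0 (15 / 16) (-(15 / 16)) 0 := en_symm _ _ _ _
    have s20 : en (15 / 16) 3 0 (15 / 16) = en 0 (15 / 16) (15 / 16) 3 := en_symm _ _ _ _
    have s30 : en (-3) (-(15 / 16)) 0 (15 / 16) = en 0 (15 / 16) (-3) (-(15 / 16)) :=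
      en_symm _ _ _ _
    have s13 : en (-(15 / 16)) 0 (-3) (-(15 / 16)) = en 0 (15 / 16) (15 / 16) 3 := by
      have := en_neg 0 (15 / 16) (15 / 16) 3
      rwa [neg_zero] at this
    have s31 : en (-3) (-(15 / 16)) (-(15 / 16)) 0 = en 0 (15 / 16) (15 / 16) 3 := by
      rw [en_symm, s13]
    have s12 : en (-(15 / 16)) 0 (15 / 16) 3 = en 0 (15 / 16) (-3) (-(15 / 16)) := by
      have := en_neg 0 (15 / 16) (-3) (-(15 / 16))
      rwa [neg_zero, neg_neg, neg_neg] at this
    have s21 : en (15 / 16) 3 (-(15 / 16)) 0 = en 0 (15 / 16) (-3) (-(15 / 16)) := by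
      rw [en_symm, s12]
    have s32 : en (-3) (-(15 / 16)) (15 / 16) 3 = en (15 / 16) 3 (-3) (-(15 / 16)) :=
      en_symm _ _ _ _
    rw [s11] at p11
    rw [s33] at p33
    rw [s10] at p10
    rw [s20] at p20
    rw [s30] at p30
    rw [s13] at p13
    rw [s31] at p31
    rw [s12] at p12
    rw [s21] at p21
    rw [s32] at p32
    have hQ : Qx * (n : ℝ) ^ 2 =
      2 * (en 0 (15 / 16) 0 (15 / 16) * (n : ℝ) ^ 2 + 2 * (en 0 (15 / 16) (15 / 16) 3 * (n : ℝ) ^ 2) +
        en (15 / 16) 3 (15 / 16) 3 * (n : ℝ) ^ 2) +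
      2 * (en 0 (15 / 16) (-(15 / 16)) 0 * (n : ℝ) ^ 2 +
        2 * (en 0 (15 / 16) (-3) (-(15 / 16)) * (n : ℝ) ^ 2) +
        en (15 / 16) 3 (-3) (-(15 / 16)) * (n : ℝ) ^ 2) := by
      unfold Qx
      ring
    rw [hQ]
    have hE : (12 * C + 16) * n * Real.log n = 12 * (C * n * Real.log n) + 4 * (4 * n * Real.log n) := by
      ring
    rw [hE]
    linarith
  have hcase : m = 4 * n - 1 ∨ m = 4 * n ∨ m = 4 * n + 1 := by omega
  rcases hcase with h | h | h
  · subst h
    obtain ⟨k, hk⟩ : ∃ k, 4 * n = k + 1 := ⟨4 * n - 1, by omega⟩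
    have e : 4 * n - 1 = k := by omega
    rw [e]
    rw [hk, SS_succ] at hmain
    have hb : ∑ j ∈ Finset.range k, Real.log |xn n k - xn n j| ≤ 4 * n * (4 * Real.log n) := by
      have h1 : ∀ j ∈ Finset.range k, Real.log |xn n k - xn n j| ≤ 4 * Real.log n := by
        intro j hj
        have hj' := Finset.mem_range.1 hj
        obtain ⟨l1, l2⟩ := hs (n := n) (by omega) k j (by omega) (by omega) (by omega)
        have h2 : Real.log |xn n k - xn n j| ≤ Real.log (6 * n) :=
          Real.log_le_log (by linarith) l2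
        have h3 : Real.log (6 * n) = Real.log 6 + Real.log n := Real.log_mul (by norm_num) hn0.ne'
        have h4 : Real.log 6 ≤ 3 * Real.log 2 := by
          have : Real.log 8 = 3 * Real.log 2 := by
            rw [show (8 : ℝ) = 2 ^ 3 by norm_num, Real.log_pow]
            norm_num
          rw [← this]
          exact Real.log_le_log (by norm_num) (by norm_num)
        linarith
      have h2 := Finset.sum_le_card_nsmul _ _ _ h1
      rw [Finset.card_range, nsmul_eq_mul] at h2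
      have h3 : (k : ℝ) ≤ 4 * n := by
        have : k ≤ 4 * n := by omega
        exact_mod_cast this
      have h4 : (k : ℝ) * (4 * Real.log n) ≤ 4 * n * (4 * Real.log n) :=
        mul_le_mul_of_nonneg_right h3 (by linarith)
      linarith
    have e1 : (12 * C + 60) * n * Real.log n = (12 * C + 16) * n * Real.log n +
        44 * (n * Real.log n) := by ring
    have e2 : 4 * (n : ℝ) * (4 * Real.log n) = 16 * (n * Real.log n) := by ring
    rw [e1]
    rw [e2] at hb
    linarith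
  · subst h
    have e1 : (12 * C + 60) * n * Real.log n = (12 * C + 16) * n * Real.log n +
        44 * (n * Real.log n) := by ring
    rw [e1]
    linarith
  · subst h
    rw [SS_succ]
    have hb : -(4 * (n : ℝ)) ≤ ∑ j ∈ Finset.range (4 * n), Real.log |xn n (4 * n) - xn n j| := by
      have h1 : ∀ j ∈ Finset.range (4 * n), (-1 : ℝ) ≤ Real.log |xn n (4 * n) - xn n j| := by
        intro j hj
        have hj' := Finset.mem_range.1 hj
        obtain ⟨l1, l2⟩ := hs (n := n) (by omega) (4 * n) j (by omega) (by omega) (by omega)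
        have h2 : Real.log (15 / 32) ≤ Real.log |xn n (4 * n) - xn n j| :=
          Real.log_le_log (by norm_num) l1
        have h3 : -1 ≤ Real.log (15 / 32) := by
          rw [Real.le_log_iff_exp_le (by norm_num), Real.exp_neg]
          have h5 := Real.exp_one_gt_d9
          rw [inv_le_comm₀ (Real.exp_pos _) (by norm_num)]
          linarith
        linarith
      have h2 := Finset.card_nsmul_le_sum _ _ _ h1
      rw [Finset.card_range, nsmul_eq_mul] at h2
      push_cast at h2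
      linarith
    have e1 : (12 * C + 60) * n * Real.log n = (12 * C + 16) * n * Real.log n +
        44 * (n * Real.log n) := by ring
    rw [e1]
    linarith

end Pool.Agent.LPB
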